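import Mathlib
import Pool.Agent.Helper606.BlockGraph

set_option autoImplicit false

namespace Pool.Agent.Results.MP_0bab5c_co.LinearLower

open Finset

/-- `S` contains neither `x` nor `y`, and every `x`-`y` walk of `G` meets `S`, that is,
`G - S` contains no `x`-`y` path. -/
def Sep {V : Type} (G : SimpleGraph V) (x y : V) (S : Finset V) : Prop :=
  x ∉ S ∧ y ∉ S ∧ ∀ p : G.Walk x y, ∃ v ∈ p.support, v ∈ S

/-- The least size of a set separating `x` from `y`. -/
noncomputable def sepNum {V : Type} (G : SimpleGraph V) (x y : V) : ℕ :=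
  sInf {m : ℕ | ∃ S : Finset V, Sep G x y S ∧ S.card = m}

open Classical in
/-- The local connectivity of two distinct vertices: for non-adjacent ones the least size of a
separating set, for adjacent ones one more than the same number after deleting the edge. -/
noncomputable def localConn {V : Type} (G : SimpleGraph V) (x y : V) : ℕ :=
  if G.Adj x y then sepNum (G.deleteEdges {s(x, y)}) x y + 1 else sepNum G x y

/-- The maximum local connectivity of a graph. -/
noncomputable def maxLocalConn {V : Type} (G : SimpleGraph V) : ℕ :=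
  sSup {m : ℕ | ∃ x y : V, x ≠ y ∧ localConn G x y = m}

/-- The largest number of edges of a graph of order `n` whose maximum local connectivity is
equal to `k`. -/
noncomputable def f (n k : ℕ) : ℕ :=
  sSup {e : ℕ | ∃ (V : Type) (_ : Fintype V) (G : SimpleGraph V), Fintype.card V = n ∧
    maxLocalConn G = k ∧ G.edgeSet.ncard = e}

section Lemmas

variable {V : Type} {G : SimpleGraph V}

lemma sep_symm {x y : V} {S : Finset V} (h : Sep G x y S) : Sep G y x S := by
  refine ⟨h.2.1, h.1, fun p => ?_⟩
  obtain ⟨v, hv, hS⟩ := h.2.2 p.reverse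
  refine ⟨v, ?_, hS⟩
  simpa using hv

lemma sepNum_symm (x y : V) : sepNum G x y = sepNum G y x := by
  unfold sepNum
  congr 1
  ext m
  constructor <;> rintro ⟨S, h, hm⟩ <;> exact ⟨S, sep_symm h, hm⟩

lemma localConn_symm (x y : V) : localConn G x y = localConn G y x := by
  unfold localConn
  have h1 : s(y, x) = s(x, y) := Sym2.eq_swap
  rw [h1, sepNum_symm (G := G) x y, sepNum_symm (G := G.deleteEdges {s(x, y)}) x y]
  by_cases h : G.Adj x y
  · rw [if_pos h, if_pos h.symm]
  · rw [if_neg h, if_neg (fun h' => h h'.symm)]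

lemma sepNum_le {x y : V} {S : Finset V} (h : Sep G x y S) : sepNum G x y ≤ S.card :=
  Nat.sInf_le ⟨S, h, rfl⟩

/-- Bound by the degree of `x`. -/
lemma localConn_le_degree [DecidableEq V] {x y : V} (hxy : x ≠ y) (N : Finset V) (hxN : x ∉ N)
    (hN : ∀ v, G.Adj x v ↔ v ∈ N) : localConn G x y ≤ N.card := by
  unfold localConn
  split_ifs with hadj
  · have hy : y ∈ N := (hN y).1 hadj
    have h1 : Sep (G.deleteEdges {s(x, y)}) x y (N.erase y) := by
      refine ⟨fun h => hxN (mem_of_mem_erase h), fun h => (notMem_erase y N) h, fun p => ?_⟩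
      have hnil : ¬ p.Nil := SimpleGraph.Walk.not_nil_of_ne hxy
      refine ⟨p.snd, p.getVert_mem_support 1, ?_⟩
      have h2 := p.adj_snd hnil
      rw [SimpleGraph.deleteEdges_adj] at h2
      rw [mem_erase]
      refine ⟨?_, (hN _).1 h2.1⟩
      intro h
      apply h2.2
      rw [h]
      simp
    have h2 := sepNum_le h1
    rw [card_erase_of_mem hy] at h2
    have : 0 < N.card := card_pos.2 ⟨y, hy⟩
    omega
  · apply sepNum_le
    refine ⟨hxN, fun h => hadj ((hN y).2 h), fun p => ?_⟩
    have hnil : ¬ p.Nil := SimpleGraph.Walk.not_nil_of_ne hxy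
    exact ⟨p.snd, p.getVert_mem_support 1, (hN _).1 (p.adj_snd hnil)⟩

/-- Lower bound for adjacent twins. -/
lemma localConn_ge_common [DecidableEq V] {x y : V} (hadj : G.Adj x y) (N : Finset V)
    (hxN : x ∉ N) (hN : ∀ v, G.Adj x v ↔ v ∈ N) (hc : ∀ v ∈ N, v ≠ y → G.Adj v y) :
    N.card ≤ localConn G x y := by
  unfold localConn
  rw [if_pos hadj]
  have hy : y ∈ N := (hN y).1 hadj
  have hset : {m : ℕ | ∃ S : Finset V, Sep (G.deleteEdges {s(x, y)}) x y S ∧
      S.card = m}.Nonempty := by
    refine ⟨_, N.erase y, ⟨fun h => hxN (mem_of_mem_erase h), fun h => (notMem_erase y N) h,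
      fun p => ?_⟩, rfl⟩
    have hnil : ¬ p.Nil := SimpleGraph.Walk.not_nil_of_ne hadj.ne
    refine ⟨p.snd, p.getVert_mem_support 1, ?_⟩
    have h2 := p.adj_snd hnil
    rw [SimpleGraph.deleteEdges_adj] at h2
    rw [mem_erase]
    refine ⟨?_, (hN _).1 h2.1⟩
    intro h
    apply h2.2
    rw [h]
    simp
  obtain ⟨S, hS, hm⟩ := Nat.sInf_mem hset
  unfold sepNum
  rw [← hm]
  have hsub : N.erase y ⊆ S := by
    intro v hv
    rw [mem_erase] at hv
    have hxv : G.Adj x v := (hN v).2 hv.2
    have hvy : G.Adj v y := hc v hv.2 hv.1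
    have a1 : (G.deleteEdges {s(x, y)}).Adj x v := by
      rw [SimpleGraph.deleteEdges_adj]
      refine ⟨hxv, ?_⟩
      simp only [Set.mem_singleton_iff, Sym2.eq_iff]
      rintro (⟨_, h⟩ | ⟨h, _⟩)
      · exact hv.1 h
      · exact hadj.ne h
    have a2 : (G.deleteEdges {s(x, y)}).Adj v y := by
      rw [SimpleGraph.deleteEdges_adj]
      refine ⟨hvy, ?_⟩
      simp only [Set.mem_singleton_iff, Sym2.eq_iff]
      rintro (⟨h, _⟩ | ⟨h, _⟩)
      · exact hxv.ne h.symm
      · exact hv.1 h
    obtain ⟨w, hw, hwS⟩ := hS.2.2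
      (SimpleGraph.Walk.cons a1 (SimpleGraph.Walk.cons a2 SimpleGraph.Walk.nil))
    simp only [SimpleGraph.Walk.support_cons, SimpleGraph.Walk.support_nil, List.mem_cons,
      List.not_mem_nil, or_false] at hw
    rcases hw with rfl | rfl | rfl
    · exact absurd hwS hS.1
    · exact hwS
    · exact absurd hwS hS.2.1
  have h1 := Finset.card_le_card hsub
  rw [card_erase_of_mem hy] at h1
  omega

end Lemmas

open Pool.Agent.Helper606.BlockGraph

lemma BG_le (t q c r k : ℕ) (hk : (c - 1) + q ≤ k) (hk2 : c + (q - 1) ≤ k)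
    (x y : Vx t q c r) (hxy : x ≠ y) : localConn (BG t q c r) x y ≤ k := by
  classical
  have hsmall : ∀ s τ a i, ∀ z : Vx t q c r, Sum.inl (s, τ, a, i) ≠ z →
      localConn (BG t q c r) (Sum.inl (s, τ, a, i)) z ≤ k := by
    intro s τ a i z hz
    have h := localConn_le_degree hz (nbS s τ a i)
      (fun h => (BG t q c r).loopless.irrefl _ ((mem_nbS s τ a i _).1 h))
      (fun v => (mem_nbS s τ a i v).symm)
    rw [card_nbS] at h
    exact h.trans hk
  have hiso : ∀ j, ∀ z : Vx t q c r, Sum.inr (Sum.inr j) ≠ z →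
      localConn (BG t q c r) (Sum.inr (Sum.inr j)) z ≤ k := by
    intro j z hz
    have h := localConn_le_degree (G := BG t q c r) hz ∅ (by simp) (fun v => by
      constructor
      · intro hv
        rcases v with ⟨s', τ', a', i'⟩ | ⟨τ', a', b'⟩ | j' <;> exact absurd hv id
      · intro h; simp at h)
    simp at h
    omega
  rcases x with ⟨s, τ, a, i⟩ | ⟨τ, a, b⟩ | j
  · exact hsmall _ _ _ _ _ hxy
  · rcases y with ⟨s', τ', a', i'⟩ | ⟨τ', a', b'⟩ | j'
    · rw [localConn_symm]; exact hsmall _ _ _ _ _ hxy.symm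
    · have hne : (τ, a, b) ≠ (τ', a', b') := by
        intro h; apply hxy; rw [h]
      obtain ⟨A, S, hxA, hyA, hAS, hyS, hS, hN⟩ := big_sep (c := c) (r := r) τ a b τ' a' b' hne
      have hnadj : ¬ (BG t q c r).Adj (Sum.inr (Sum.inl (τ, a, b)))
          (Sum.inr (Sum.inl (τ', a', b'))) := id
      unfold localConn
      rw [if_neg hnadj]
      refine (sepNum_le (S := S) ⟨fun h => Finset.disjoint_left.1 hAS hxA h, hyS,
        fun p => ?_⟩).trans (hS.trans hk2)
      by_contra hcon
      push Not at hcon
      have key : ∀ (u v : Vx t q c r) (w : (BG t q c r).Walk u v), u ∈ A →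
          (∀ z ∈ w.support, z ∉ S) → v ∈ A := by
        intro u v w
        induction w with
        | nil => intro h _; exact h
        | @cons u v w huv _ ih =>
          intro hu hw
          rw [SimpleGraph.Walk.support_cons] at hw
          apply ih
          · rcases hN u hu v huv with h | h
            · exact h
            · exfalso
              refine hw v ?_ h
              simp
          · intro z hz
            exact hw z (List.mem_cons_of_mem _ hz)
      exact hyA (key _ _ p hxA hcon)
    · rw [localConn_symm]; exact hiso _ _ hxy.symm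
  · exact hiso _ _ hxy

/-- The maximum local connectivity of the block graph is exactly `k`. -/
lemma BG_eq (t q c r k : ℕ) (ht : 1 ≤ t) (hq : 1 ≤ q) (hcq : c + q = k + 1)
    (hc : 2 ≤ c ∨ (c = 1 ∧ k = 1)) : maxLocalConn (BG t q c r) = k := by
  classical
  have hle := BG_le t q c r k (by omega) (by omega)
  apply le_antisymm
  · apply csSup_le'
    rintro m ⟨x, y, hxy, rfl⟩
    exact hle x y hxy
  · have hbdd : BddAbove {m : ℕ | ∃ x y : Vx t q c r, x ≠ y ∧
        localConn (BG t q c r) x y = m} := by
      refine ⟨k, ?_⟩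
      rintro m ⟨x, y, hxy, rfl⟩
      exact hle x y hxy
    rcases hc with hc | ⟨hc, hk1⟩
    · -- adjacent twins in one clique
      let τ : Fin t := ⟨0, by omega⟩
      let a : Fin q := ⟨0, by omega⟩
      let i : Fin c := ⟨0, by omega⟩
      let i' : Fin c := ⟨1, by omega⟩
      have hii : i ≠ i' := by
        intro h
        have := congrArg Fin.val h
        simp [i, i'] at this
      have hadj : (BG t q c r).Adj (Sum.inl (true, τ, a, i)) (Sum.inl (true, τ, a, i')) :=
        ⟨rfl, rfl, rfl, hii⟩
      have h := localConn_ge_common (G := BG t q c r) hadj (nbS true τ a i)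
        (fun h => (BG t q c r).loopless.irrefl _ ((mem_nbS true τ a i _).1 h))
        (fun v => (mem_nbS true τ a i v).symm) (by
          intro v hv hne
          rw [mem_nbS] at hv
          rcases v with ⟨s', τ', a', j⟩ | ⟨τ', a', b'⟩ | j
          · obtain ⟨h1, h2, h3, _⟩ := hv
            subst h1; subst h2; subst h3
            refine ⟨rfl, rfl, rfl, ?_⟩
            intro h
            apply hne
            rw [h]
          · exact hv
          · exact absurd hv id)
      rw [card_nbS] at h
      have hval : k ≤ localConn (BG t q c r) (Sum.inl (true, τ, a, i))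
          (Sum.inl (true, τ, a, i')) := by omega
      exact hval.trans (le_csSup hbdd ⟨_, _, hadj.ne, rfl⟩)
    · subst hc
      let τ : Fin t := ⟨0, by omega⟩
      let a : Fin q := ⟨0, by omega⟩
      let i : Fin 1 := ⟨0, by omega⟩
      have hadj : (BG t q 1 r).Adj (Sum.inl (true, τ, a, i)) (Sum.inr (Sum.inl (τ, a, a))) := by
        refine ⟨rfl, ?_⟩
        simp [blk]
      have hval : k ≤ localConn (BG t q 1 r) (Sum.inl (true, τ, a, i))
          (Sum.inr (Sum.inl (τ, a, a))) := by
        unfold localConn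
        rw [if_pos hadj]
        omega
      exact hval.trans (le_csSup hbdd ⟨_, _, hadj.ne, rfl⟩)

lemma f_ge {n k : ℕ} {V : Type} [Fintype V] (G : SimpleGraph V)
    (hn : Fintype.card V = n) (hG : maxLocalConn G = k) : G.edgeSet.ncard ≤ f n k := by
  apply le_csSup
  · refine ⟨n.choose 2, ?_⟩
    rintro e ⟨W, _, H, hW, _, rfl⟩
    classical
    rw [← hW]
    have h2 : H.edgeSet.ncard = H.edgeFinset.card := by
      rw [← SimpleGraph.coe_edgeFinset, Set.ncard_coe_finset]
    rw [h2]
    exact SimpleGraph.card_edgeFinset_le_card_choose_two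
  · exact ⟨V, inferInstance, G, hn, hG, rfl⟩

/-- For all `k ≥ 1` and `n ≥ k + 1`, the largest size of a graph of order `n` with maximum
local connectivity `k` is at least `(4 - 2 √3) k n - 2 k ^ 3`. -/
theorem result (n k : ℕ) (hk : 1 ≤ k) (hn : k + 1 ≤ n) :
    (4 - 2 * Real.sqrt 3) * k * n - 2 * k ^ 3 ≤ (f n k : ℝ) := by
  obtain ⟨t, q, c, r, hq, hc, hcq, hqc, hcard, he, h0⟩ := exists_params k n hk
  rcases Nat.eq_zero_or_pos t with ht | ht
  · exact (h0 ht).trans (Nat.cast_nonneg _)
  · refine he.trans ?_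
    have := f_ge (BG t q c r) hcard (BG_eq t q c r k ht hq hcq (by omega))
    exact_mod_cast this

end Pool.Agent.Results.MP_0bab5c_co.LinearLower
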